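import Pool.Agent.H53Lang.Fam

namespace Pool.Agent.H53Lang

open Cardinal

theorem gen_inj (o o' : Om) (h : ∀ w, @L1 o w → @L1 o' w) : o.val = o'.val := by
  funext i
  obtain ⟨l, hl, hv⟩ := @exists_valid o 0 (fun _ => (0, [])) (i + 1)
  have h1 : @L1 o (@nm o l) := by
    letI := o
    have := L1.step (Run.cons (q := 0) hv (Run.nil _)) L1.nil
    simpa using this
  have h2 := h _ h1
  obtain ⟨m, q', out, h3⟩ := @L1.run o' _ h2
  obtain ⟨c, rfl⟩ := Nat.exists_eq_add_of_le hl
  have e : @nm o (i + 1 + c) = ((List.range i).map fun t => some (@om o t)) ++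
      some (@om o i) :: (((List.range c).map fun t => some (@om o (i + 1 + t))) ++ [none]) := by
    simp [nm, pre, List.range_add, List.range_succ, Function.comp_def]
  have h4 := @Run.pos o' _ _ _ _ _ h3 _ _ _ e
  have h5 : tl ((List.range i).map fun t => some (@om o t)) = i := by
    have := @tl_append o [] ((List.range i).map fun t => some (@om o t)) (by simp)
    simpa [tl] using this
  rw [h5] at h4
  exact h4

/-- Renaming the states of an agsm. -/
abbrev ren {X Y : Type} (g : Agsm X Y) {m : ℕ} (e : g.Q ≃ Fin m) : Agsm X Y :=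
  ⟨Fin m, inferInstance, e g.q0, {q | e.symm q ∈ g.F}, fun q x => e (g.t (e.symm q) x),
    fun q x => g.h (e.symm q) x⟩

theorem ren_spec {X Y : Type} (g : Agsm X Y) {m : ℕ} (e : g.Q ≃ Fin m) (w : List X) :
    ∀ q : g.Q, (ren g e).tS (e q) w = e (g.tS q w) ∧ (ren g e).hS (e q) w = g.hS q w := by
  induction w with
  | nil => intro q; exact ⟨rfl, rfl⟩
  | cons x w ih =>
    intro q
    have h1 : (ren g e).t (e q) x = e (g.t q x) := by simp [ren]
    have h2 : (ren g e).h (e q) x = g.h q x := by simp [ren]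
    refine ⟨?_, ?_⟩
    · have h3 : (ren g e).tS (e q) (x :: w) = (ren g e).tS (e (g.t q x)) w := congrArg
        (fun r => (ren g e).tS r w) h1
      exact h3.trans (ih _).1
    · have h3 : (ren g e).hS (e q) (x :: w) =
          (ren g e).h (e q) x ++ (ren g e).hS ((ren g e).t (e q) x) w := rfl
      rw [h3, h1, h2, (ih _).2]
      rfl

theorem ren_inv {X Y : Type} (g : Agsm X Y) {m : ℕ} (e : g.Q ≃ Fin m) (M : Language Y) :
    (ren g e).inv M = g.inv M := by
  ext w
  obtain ⟨h1, h2⟩ := ren_spec g e w g.q0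
  show ((ren g e).tS (e g.q0) w ∈ (ren g e).F ∧ (ren g e).hS (e g.q0) w ∈ M) ↔ _
  rw [h1, h2]
  show (e.symm (e _) ∈ g.F ∧ _) ↔ _
  rw [e.symm_apply_apply]; rfl

abbrev Dat : Type := Σ m : ℕ, Fin m × Set (Fin m) × (Fin m → Sg → Fin m) × (Fin m → Sg → List Sg)

instance : Countable Dat := inferInstance

theorem countable_members (o : Om) :
    {L : Language Sg | (⟨Sg, inferInstance, L⟩ : Lang) ∈ @Fam o}.Countable := by
  refine (Set.countable_range (fun d : Dat =>
    (⟨Fin d.1, inferInstance, d.2.1, d.2.2.1, d.2.2.2.1, d.2.2.2.2⟩ : Agsm Sg Sg).inv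
      {w | @L1 o w})).mono ?_
  rintro L ⟨g, hg⟩
  have := g.finQ
  let e : g.Q ≃ Fin (Nat.card g.Q) := Finite.equivFin g.Q
  refine ⟨⟨Nat.card g.Q, e g.q0, {q | e.symm q ∈ g.F}, fun q x => e (g.t (e.symm q) x),
    fun q x => g.h (e.symm q) x⟩, ?_⟩
  have := ren_inv g e {w | @L1 o w}
  exact this.trans hg.symm

/-- The binary sequences which are not ultimately periodic. -/
abbrev NP : Type := {ω : ℕ → Bool // ∀ N p : ℕ, 0 < p → ¬ ∀ i, N ≤ i → ω (i + p) = ω i}

theorem countable_per :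
    {ω : ℕ → Bool | ¬ ∀ N p : ℕ, 0 < p → ¬ ∀ i, N ≤ i → ω (i + p) = ω i}.Countable := by
  have : {ω : ℕ → Bool | ¬ ∀ N p : ℕ, 0 < p → ¬ ∀ i, N ≤ i → ω (i + p) = ω i} ⊆
      ⋃ x : ℕ × ℕ, {ω : ℕ → Bool | 0 < x.2 ∧ ∀ i, x.1 ≤ i → ω (i + x.2) = ω i} := by
    intro ω h
    simp only [Set.mem_ofPred_eq] at h
    push Not at h
    obtain ⟨N, p, hp, h⟩ := h
    exact Set.mem_iUnion.2 ⟨(N, p), hp, h⟩
  refine (Set.countable_iUnion fun x => ?_).mono this
  obtain ⟨N, p⟩ := x
  have hinj : Function.Injective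
      (fun (ω : {ω : ℕ → Bool | 0 < p ∧ ∀ i, N ≤ i → ω (i + p) = ω i}) (i : Fin (N + p)) =>
        ω.1 i) := by
    intro a b e
    have ha := a.2.2
    have hb := b.2.2
    have hp := a.2.1
    refine Subtype.ext (funext fun i => ?_)
    induction i using Nat.strong_induction_on with
    | _ i ih =>
      by_cases hi : i < N + p
      · exact congrFun e ⟨i, hi⟩
      · obtain ⟨j, rfl⟩ := Nat.exists_eq_add_of_le (by omega : p ≤ i)
        have h1 := ha j (by omega)
        have h2 := hb j (by omega)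
        rw [add_comm p j]
        exact h1.trans ((ih j (by omega)).trans h2.symm)
  exact hinj.countable

theorem mk_NP : #NP = 𝔠 := by
  have h1 : #(ℕ → Bool) = 𝔠 := by simp
  haveI : Infinite (ℕ → Bool) := by
    rw [Cardinal.infinite_iff, h1]; exact aleph0_le_continuum
  have h2 : #{ω : ℕ → Bool | ¬ ∀ N p : ℕ, 0 < p → ¬ ∀ i, N ≤ i → ω (i + p) = ω i} < #(ℕ → Bool) := by
    rw [h1]
    exact (Cardinal.le_aleph0_iff_set_countable.2 countable_per).trans_lt aleph0_lt_continuum
  have h3 := Cardinal.mk_compl_of_infinite _ h2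
  rw [h1] at h3
  rw [← h3]
  refine Cardinal.mk_congr (Equiv.subtypeEquivRight fun ω => ?_)
  simp

theorem many {α : Type} {β : Type 1} (f : α → β) (hf : ∀ b, (f ⁻¹' {b}).Countable)
    (hα : #α = 𝔠) : 𝔠 ≤ #(Set.range f) := by
  have hc : ∀ b : β, ∃ g : α → ℕ, Set.InjOn g (f ⁻¹' {b}) := fun b => Set.countable_iff_exists_injOn.1 (hf b)
  choose g hg using hc
  have hinj : Function.Injective (fun a : α => ((⟨f a, a, rfl⟩ : Set.range f), g (f a) a)) := by
    intro a a' h
    have h1 : f a = f a' := congrArg (fun x => x.1.1) h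
    have h2 : g (f a) a = g (f a') a' := congrArg (fun x => x.2) h
    rw [h1] at h2
    exact hg (f a') (by simp [h1]) (by simp) h2
  have h1 : Cardinal.lift.{1} #α ≤ Cardinal.lift.{0} #(Set.range f × ℕ) :=
    Cardinal.lift_mk_le'.2 ⟨⟨_, hinj⟩⟩
  rw [hα] at h1
  simp only [lift_continuum, mk_prod, lift_id, mk_nat, lift_aleph0, lift_uzero] at h1
  by_contra hlt
  rw [not_le] at hlt
  have h2 : #(Set.range f) * ℵ₀ < 𝔠 :=
    Cardinal.mul_lt_of_lt aleph0_le_continuum hlt aleph0_lt_continuum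
  exact absurd h1 (not_le.2 h2)

/-- The family generated by a language. -/
def gen (K : Lang) : Set Lang := {N | Relation.ReflTransGen AgsmInv K N}

theorem principal_eq {𝓛 : Set Lang} (h : Principal AgsmInv 𝓛) : ∃ K, 𝓛 = gen K := by
  obtain ⟨hc, K, hK, hg⟩ := h
  refine ⟨K, Set.Subset.antisymm hg ?_⟩
  intro N hN
  induction hN with
  | refl => exact hK
  | tail _ h1 ih => exact hc _ ih _ h1

/-- The standard families. -/
def std (x : ℕ × Set (List ℕ)) : Set Lang :=
  gen ⟨Fin x.1, inferInstance, {w | w.map Fin.val ∈ x.2}⟩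

theorem gen_std (K : Lang) : ∃ x, gen K = std x := by
  obtain ⟨X, hX, L⟩ := K
  let e : X ≃ Fin (Nat.card X) := Finite.equivFin X
  refine ⟨(Nat.card X, {v | ∃ w ∈ L, (w.map e).map Fin.val = v}), ?_⟩
  have hL : ({w : List (Fin (Nat.card X)) | w.map Fin.val ∈
      {v | ∃ w ∈ L, (w.map e).map Fin.val = v}} : Language _) = {w | w.map e.symm ∈ L} := by
    ext w
    show (∃ w' ∈ L, (w'.map e).map Fin.val = w.map Fin.val) ↔ w.map e.symm ∈ L
    constructor
    · rintro ⟨w', h1, h2⟩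
      have h3 : w'.map e = w := List.map_injective_iff.2 Fin.val_injective h2
      rw [← h3, List.map_map]
      simpa using h1
    · intro h
      exact ⟨_, h, by simp [List.map_map, Function.comp_def]⟩
  have h1 : AgsmInv ⟨X, hX, L⟩ ⟨Fin (Nat.card X), inferInstance, {w | w.map e.symm ∈ L}⟩ := by
    refine ⟨Agsm.hom fun x => [e.symm x], ?_⟩
    rw [Agsm.hom_inv]
    ext w
    show w.map e.symm ∈ L ↔ (w.flatMap fun x => [e.symm x]) ∈ L
    rw [List.map_eq_flatMap]
  have h2 : AgsmInv ⟨Fin (Nat.card X), inferInstance, {w | w.map e.symm ∈ L}⟩ ⟨X, hX, L⟩ := by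
    refine ⟨Agsm.hom fun x => [e x], ?_⟩
    rw [Agsm.hom_inv]
    ext w
    show w ∈ L ↔ (w.flatMap fun x => [e x]).map e.symm ∈ L
    have : (w.flatMap fun x => [e x]) = w.map e := by
      rw [List.map_eq_flatMap]
    rw [this, List.map_map]
    simp
  rw [std]
  simp only [hL]
  refine Set.Subset.antisymm (fun N h => ?_) (fun N h => ?_)
  · exact (Relation.ReflTransGen.single h2).trans h
  · exact (Relation.ReflTransGen.single h1).trans h

theorem mk_principal_le : #{𝓛 : Set Lang | Principal AgsmInv 𝓛} ≤ 𝔠 := by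
  have h1 : {𝓛 : Set Lang | Principal AgsmInv 𝓛} ⊆ Set.range std := by
    intro 𝓛 h
    obtain ⟨K, rfl⟩ := principal_eq h
    obtain ⟨x, hx⟩ := gen_std K
    exact ⟨x, hx.symm⟩
  refine (Cardinal.mk_le_mk_of_subset h1).trans ?_
  have h2 : Cardinal.lift.{0} #(Set.range std) ≤ Cardinal.lift.{1} #(ℕ × Set (List ℕ)) :=
    Cardinal.mk_range_le_lift
  have h3 : #(ℕ × Set (List ℕ)) = 𝔠 := by simp
  rw [h3] at h2
  simpa using h2

end Pool.Agent.H53Lang
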