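import Pool.Agent.H53Lang.Count

namespace Pool.Agent.H53Lang

variable {X : Type}

def isyb : TL X → Bool
  | .inl _ => false
  | .inr i => i == 1

theorem isyb_yb : isyb (yb : TL X) = true := rfl

theorem isyb_of_ne {a : TL X} (h : a ≠ yb) : isyb a = false := by
  cases a with
  | inl _ => rfl
  | inr i =>
    fin_cases i
    · rfl
    · exact absurd rfl h
    · rfl

theorem y_ne_z : (y : TL X) ≠ z := by simp [y, z]
theorem y_ne_yb : (y : TL X) ≠ yb := by simp [y, yb]
theorem z_ne_yb : (z : TL X) ≠ yb := by simp [z, yb]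

theorem der_inv' {i : Fin 4} {w : List (TL X)} (h : Der i w) :
    (i = 3 → ∃ r, w = yb :: r) ∧ (i ≠ 3 → w = [] ∧ i = 0 ∨ ∃ k r,
      (w = List.replicate k y ++ z :: r ∧ r.countP isyb = k) ∨
        w = List.replicate k y ++ yb :: r) := by
  induction h with
  | v0_v1 _ ih => exact ⟨by simp, fun _ => Or.inr ((ih.2 (by simp)).resolve_left (by simp))⟩
  | v0_eps => exact ⟨by simp, fun _ => Or.inl ⟨rfl, rfl⟩⟩
  | v1_y _ ih =>
    refine ⟨by simp, fun _ => Or.inr ?_⟩
    obtain ⟨k, r, ⟨rfl, h⟩ | rfl⟩ := (ih.2 (by simp)).resolve_left (by simp)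
    · exact ⟨k + 1, r ++ [yb], Or.inl ⟨by simp [List.replicate_succ], by
        simp [h, isyb_yb]⟩⟩
    · exact ⟨k + 1, r ++ [yb], Or.inr (by simp [List.replicate_succ])⟩
  | v1_v3 _ ih =>
    obtain ⟨r, rfl⟩ := ih.1 rfl
    exact ⟨by simp, fun _ => Or.inr ⟨0, r ++ [z], Or.inr (by simp)⟩⟩
  | v1_z => exact ⟨by simp, fun _ => Or.inr ⟨0, [], Or.inl ⟨rfl, rfl⟩⟩⟩
  | v2_x a h1 _ _ ih =>
    refine ⟨by simp, fun _ => Or.inr ?_⟩
    obtain ⟨k, r, ⟨rfl, h⟩ | rfl⟩ := (ih.2 (by simp)).resolve_left (by simp)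
    · exact ⟨k, r ++ [a], Or.inl ⟨by simp, by
        simp [h, isyb_of_ne h1]⟩⟩
    · exact ⟨k, r ++ [a], Or.inr (by simp)⟩
  | v2_v1 _ ih => exact ⟨by simp, fun _ => Or.inr ((ih.2 (by simp)).resolve_left (by simp))⟩
  | v3_x a _ _ ih =>
    obtain ⟨r, rfl⟩ := ih.1 rfl
    exact ⟨fun _ => ⟨r ++ [a], rfl⟩, by simp⟩
  | v3_yb => exact ⟨fun _ => ⟨[], rfl⟩, by simp⟩

theorem rep_split' {a : TL X} : ∀ {k n : ℕ} {b c : TL X} {r s : List (TL X)}, b ≠ a → c ≠ a →
    List.replicate k a ++ b :: r = List.replicate n a ++ c :: s → k = n ∧ b = c ∧ r = s := by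
  intro k
  induction k with
  | zero =>
    intro n b c r s hb _ h
    cases n with
    | zero => simpa using h
    | succ n => simp [List.replicate_succ] at h; exact absurd h.1 hb
  | succ k ih =>
    intro n b c r s hb hc h
    cases n with
    | zero => simp [List.replicate_succ] at h; exact absurd h.1.symm hc
    | succ n =>
      simp only [List.replicate_succ, List.cons_append, List.cons.injEq, true_and] at h
      obtain ⟨h1, h2⟩ := ih hb hc h
      exact ⟨by rw [h1], h2⟩

theorem count_pre {R R' : List (TL X)} {c : TL X} (hc : c ≠ yb) (hR : yb ∉ R) :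
    ∀ (m : ℕ) (s : List (TL X)), List.replicate m yb ++ R = s ++ c :: R' → s.countP isyb = m := by
  intro m
  induction m with
  | zero =>
    intro s h
    simp only [List.replicate_zero, List.nil_append] at h
    rw [List.countP_eq_zero]
    intro a ha hb
    have h1 : a ∈ R := by rw [h]; simp [ha]
    by_cases h2 : a = yb
    · exact hR (h2 ▸ h1)
    · rw [isyb_of_ne h2] at hb; simp at hb
  | succ m ih =>
    intro s h
    cases s with
    | nil =>
      simp only [List.replicate_succ, List.cons_append, List.nil_append, List.cons.injEq] at h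
      exact absurd h.1.symm hc
    | cons a s =>
      simp only [List.replicate_succ, List.cons_append, List.cons.injEq] at h
      obtain ⟨rfl, h2⟩ := h
      rw [List.countP_cons, ih s h2, isyb_yb]
      simp

theorem der_diag' (n : ℕ) :
    Der 1 (List.replicate n (y : TL X) ++ z :: List.replicate n yb) := by
  induction n with
  | zero => exact Der.v1_z
  | succ n ih =>
    have := Der.v1_y (Der.v2_v1 ih)
    rw [List.replicate_succ, List.replicate_succ']
    simpa using this

theorem inter_plain : ∀ f : List X, Inter f (f.map Sum.inl)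
  | [] => Inter.nil
  | [x] => Inter.one x
  | x :: x' :: f => by
    have := Inter.cons x x' (α := []) Der.v0_eps (inter_plain (x' :: f))
    simpa using this

theorem inter_head {f : List X} {u : List (TL X)} (h : Inter f u) (g : X) (f' : List X)
    (e : f = g :: f') : ∃ r, u = Sum.inl g :: r := by
  cases h with
  | nil => simp at e
  | one x => simp at e; exact ⟨[], by rw [e.1]⟩
  | cons x x' _ _ => simp at e; exact ⟨_, by rw [e.1]⟩

theorem B_head {b : List (TL X)} (h : b ∈ B X) : b = [y] ∨ b = [] ∨ ∃ r, b = yb :: r := by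
  rcases h with h | h
  · exact Or.inl h
  · obtain ⟨L, rfl, hL⟩ := Language.mem_kstar.1 h
    right
    cases L with
    | nil => exact Or.inl rfl
    | cons v L =>
      right
      have h1 := hL v (by simp)
      obtain ⟨a, ha, c, hc, rfl⟩ := Language.mem_mul.1 h1
      obtain ⟨a1, ha1, a2, ha2, rfl⟩ := Language.mem_mul.1 ha
      have h2 : a1 = [yb] := ha1
      subst h2
      exact ⟨a2 ++ (c ++ L.flatten), by simp⟩

def wd' (x x' : X) (t : List X) (n m : ℕ) : List (TL X) :=
  [z, yb, Sum.inl x] ++ (List.replicate n y ++ (z :: List.replicate m yb ++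
    (Sum.inl x' :: (t.map Sum.inl ++ [y]))))

theorem wd_mem' {M : Lang} {x x' : M.X} {t : List M.X} (h : x :: x' :: t ∈ M.L) (n : ℕ) :
    wd' x x' t n n ∈ (T M).L :=
  ⟨x :: x' :: t, h, _, [y], Inter.cons x x' (Der.v0_v1 (der_diag' n)) (inter_plain (x' :: t)),
    Or.inl rfl, by simp [wd']⟩

theorem wd_diag' {M : Lang} {x x' : M.X} {t : List M.X} {n m : ℕ}
    (h : wd' x x' t n m ∈ (T M).L) : n = m := by
  obtain ⟨f, hf, u, b, hu, hb, e⟩ := h
  have e1 : Sum.inl x :: (List.replicate n y ++ (z :: (List.replicate m yb ++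
      (Sum.inl x' :: (t.map Sum.inl ++ [y]))))) = u ++ b := by
    have := e
    simp only [wd', List.cons_append, List.nil_append, List.cons.injEq, true_and] at this
    exact this
  have noB : ∀ b : List (TL M.X), b ∈ B M.X → ∀ R, b = List.replicate n y ++ z :: R → False := by
    intro b hb R hR
    rcases B_head hb with h | h | ⟨r, h⟩
    · rw [h] at hR
      have : (z : TL M.X) ∈ [y] := by rw [hR]; simp
      simp at this
      exact y_ne_z this.symm
    · rw [h] at hR; simp at hR
    · rw [h] at hR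
      cases n with
      | zero => simp at hR; exact z_ne_yb hR.1.symm
      | succ n => simp [List.replicate_succ] at hR; exact y_ne_yb hR.1.symm
  cases hu with
  | nil =>
    simp only [List.nil_append] at e1
    rcases B_head hb with h | h | ⟨r, h⟩ <;> rw [h] at e1 <;> simp [y, yb] at e1
  | one g =>
    simp only [List.cons_append, List.nil_append, List.cons.injEq] at e1
    exact (noB b hb _ e1.2.symm).elim
  | @cons g g' f' α r hα hr =>
    obtain ⟨r', rfl⟩ := inter_head hr g' f' rfl
    simp only [List.cons_append, List.append_assoc, List.cons.injEq] at e1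
    have e2 := e1.2
    rcases (der_inv' hα).2 (by simp) with ⟨h, -⟩ | ⟨k, s, ⟨h1, h2⟩ | h1⟩
    · rw [h] at e2
      cases n with
      | zero => simp [z] at e2
      | succ n => simp [List.replicate_succ, y] at e2
    · rw [h1, List.append_assoc, List.cons_append] at e2
      obtain ⟨rfl, -, e3⟩ := rep_split' y_ne_z.symm y_ne_z.symm e2
      have := count_pre (by simp [yb]) (by simp [y, yb]) m s e3
      omega
    · rw [h1, List.append_assoc, List.cons_append] at e2
      exact absurd (rep_split' y_ne_z.symm y_ne_yb.symm e2).2.1 z_ne_yb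

theorem not_closed' [Om] (M : Lang) (hM : ∃ w ∈ M.L, 2 ≤ w.length) : T M ∉ Fam := by
  intro H
  obtain ⟨w, hw, hl⟩ := hM
  obtain ⟨x, x', t, rfl⟩ : ∃ x x' t, w = x :: x' :: t := by
    match w, hl with
    | x :: x' :: t, _ => exact ⟨x, x', t, rfl⟩
  obtain ⟨g, hg⟩ : ∃ g : Agsm (TL M.X) Sg, ∀ w : List (TL M.X), w ∈ (T M).L ↔
      g.tS g.q0 w ∈ g.F ∧ L1 (g.hS g.q0 w) := by
    obtain ⟨g, hg⟩ := H
    exact ⟨g, fun w => by rw [hg]; rfl⟩
  obtain ⟨φ, hφ⟩ := simulate g
  have := g.finQ
  have hf := torsion _ (φ y) (List.flatMap φ [z, yb, Sum.inl x]) rfl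
  have := hf.to_subtype
  obtain ⟨n, n', hne, he⟩ := Finite.exists_ne_map_eq_of_infinite fun n : ℕ =>
    (g.tS g.q0 ([z, yb, Sum.inl x] ++ List.replicate n y),
      (⟨_, n, rfl⟩ : Set.range fun n => Ner (List.flatMap φ [z, yb, Sum.inl x] ++ rp n (φ y))))
  have he1 := congrArg Prod.fst he
  have he2 := congrArg (fun x => x.2.1) he
  simp only at he1 he2
  have hrp : ∀ n, (List.replicate n (y : TL M.X)).flatMap φ = rp n (φ y) := fun n => by
    induction n with
    | zero => rfl
    | succ n ih => rw [List.replicate_succ, List.flatMap_cons, ih, rp]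
  have key : ∀ n m, wd' x x' t n m ∈ (T M).L ↔
      g.tS (g.tS g.q0 ([z, yb, Sum.inl x] ++ List.replicate n y))
        (z :: List.replicate m yb ++ (Sum.inl x' :: (t.map Sum.inl ++ [y]))) ∈ g.F ∧
      (z :: List.replicate m yb ++ (Sum.inl x' :: (t.map Sum.inl ++ [y]))).flatMap φ ∈
        Ner (List.flatMap φ [z, yb, Sum.inl x] ++ rp n (φ y)) := by
    intro n m
    rw [hg]
    refine and_congr ?_ ?_
    · rw [wd', ← List.append_assoc, Agsm.tS_append]
    · refine (hφ _).symm.trans ?_
      rw [wd', List.flatMap_append, List.flatMap_append, hrp, ← List.append_assoc]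
      rfl
  have h1 := (key n n).1 (wd_mem' hw n)
  rw [he1, he2] at h1
  exact hne (wd_diag' ((key n' n).2 h1)).symm

end Pool.Agent.H53Lang
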