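import Pool.Agent.H53Lang.Core

namespace Pool.Agent.H53Lang


namespace Agsm

variable {X Y Z : Type}

theorem tS_cons (g : Agsm X Y) (q x w) : g.tS q (x :: w) = g.tS (g.t q x) w := rfl

theorem tS_append (g : Agsm X Y) (q u v) : g.tS q (u ++ v) = g.tS (g.tS q u) v :=
  List.foldl_append

theorem hS_append (g : Agsm X Y) (u v) : ∀ q, g.hS q (u ++ v) = g.hS q u ++ g.hS (g.tS q u) v := by
  induction u with
  | nil => intro q; rfl
  | cons x u ih => intro q; simp only [List.cons_append, hS, ih, List.append_assoc, tS_cons]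

def comp (g : Agsm Y Z) (f : Agsm X Y) : Agsm X Z where
  Q := f.Q × g.Q
  finQ := by haveI := f.finQ; haveI := g.finQ; infer_instance
  q0 := (f.q0, g.q0)
  F := {p | p.1 ∈ f.F ∧ p.2 ∈ g.F}
  t := fun p x => (f.t p.1 x, g.tS p.2 (f.h p.1 x))
  h := fun p x => g.hS p.2 (f.h p.1 x)

theorem comp_spec (g : Agsm Y Z) (f : Agsm X Y) (w : List X) : ∀ (a : f.Q) (b : g.Q),
    (g.comp f).tS (a, b) w = (f.tS a w, g.tS b (f.hS a w)) ∧
      (g.comp f).hS (a, b) w = g.hS b (f.hS a w) := by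
  induction w with
  | nil => intro a b; exact ⟨rfl, rfl⟩
  | cons x w ih =>
    intro a b
    obtain ⟨h1, h2⟩ := ih (f.t a x) (g.tS b (f.h a x))
    refine ⟨?_, ?_⟩
    · rw [tS_cons, tS_cons, hS, tS_append]; exact h1
    · rw [hS, hS, hS_append, ← h2]; rfl

theorem inv_comp (g : Agsm Y Z) (f : Agsm X Y) (M : Language Z) :
    f.inv (g.inv M) = (g.comp f).inv M := by
  ext w
  obtain ⟨h1, h2⟩ := comp_spec g f w f.q0 g.q0
  show (_ ∧ _ ∧ _) ↔ ((g.comp f).tS (f.q0, g.q0) w ∈ (g.comp f).F ∧ (g.comp f).hS (f.q0, g.q0) w ∈ M)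
  rw [h1, h2, ← and_assoc]; rfl

theorem dom_regular (g : Agsm X Y) :
    Language.IsRegular ({w | g.tS g.q0 w ∈ g.F} : Language X) := by
  haveI := g.finQ
  haveI := Fintype.ofFinite g.Q
  exact ⟨g.Q, inferInstance, ⟨g.t, g.q0, g.F⟩, rfl⟩

def hom (φ : X → List Y) : Agsm X Y := ⟨Unit, inferInstance, (), Set.univ, fun _ _ => (), fun _ => φ⟩

theorem hom_inv (φ : X → List Y) (M : Language Y) : (hom φ).inv M = {w | w.flatMap φ ∈ M} := by
  have : ∀ w q, (hom φ).hS q w = w.flatMap φ := by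
    intro w
    induction w with
    | nil => intro q; rfl
    | cons x w ih => intro q; rw [hS, ih]; rfl
  ext w
  show (_ ∧ _) ↔ _
  rw [this]
  exact ⟨fun h => h.2, fun h => ⟨trivial, h⟩⟩

def ofDFA {σ : Type} [Finite σ] (A : DFA X σ) (φ : X → List Y) : Agsm X Y :=
  ⟨σ, inferInstance, A.start, A.accept, A.step, fun _ => φ⟩

theorem ofDFA_inv {σ : Type} [Finite σ] (A : DFA X σ) (φ : X → List Y) (M : Language Y) :
    (ofDFA A φ).inv M = {w | w.flatMap φ ∈ M ∧ w ∈ A.accepts} := by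
  have : ∀ w q, (ofDFA A φ).hS q w = w.flatMap φ := by
    intro w
    induction w with
    | nil => intro q; rfl
    | cons x w ih => intro q; rw [hS, ih]; rfl
  ext w
  show (_ ∧ _) ↔ _
  rw [this]
  exact ⟨fun h => ⟨h.2, h.1⟩, fun h => ⟨h.2, h.1⟩⟩

end Agsm

variable [Om]

theorem simulate {X : Type} (g : Agsm X Sg) :
    ∃ φ : X → List Sg, ∀ w, L1 (w.flatMap φ) ↔ L1 (g.hS g.q0 w) := by
  haveI := g.finQ
  haveI : Nonempty g.Q := ⟨g.q0⟩
  obtain ⟨m, hm⟩ : ∃ m, Nat.card g.Q = m + 1 := ⟨Nat.card g.Q - 1, by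
    have := Nat.card_pos (α := g.Q); omega⟩
  let e0 : g.Q ≃ Fin (m + 1) := Finite.equivFinOfCardEq hm
  let e : g.Q ≃ Fin (m + 1) := e0.trans (Equiv.swap (e0 g.q0) 0)
  have he : e g.q0 = 0 := by simp [e]
  let T : X → Tab m := fun x r => (e (g.t (e.symm r) x), g.h (e.symm r) x)
  choose l _ hl using fun x => exists_valid m (T x) 0
  refine ⟨fun x => nm (l x), fun w => ?_⟩
  have : ∀ q, Run m (e q) (w.flatMap fun x => nm (l x)) (e (g.tS q w)) (g.hS q w) := by
    induction w with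
    | nil => intro q; exact Run.nil _
    | cons x w ih =>
      intro q
      have := Run.cons (q := e q) (hl x) (by simpa [T] using ih (g.t q x))
      simpa [T, Agsm.hS, Agsm.tS_cons] using this
  have h := this g.q0
  rw [he] at h
  exact L1_iff h

abbrev L0 : Lang := ⟨Sg, inferInstance, {w | L1 w}⟩

def Fam : Set Lang := {N | AgsmInv L0 N}

theorem mem_of_regular (X : Type) (hX : Finite X) (R : Language X) (hR : R.IsRegular) :
    (⟨X, hX, R⟩ : Lang) ∈ Fam := by
  obtain ⟨σ, _, A, rfl⟩ := hR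
  refine ⟨Agsm.ofDFA A fun _ => [], ?_⟩
  rw [Agsm.ofDFA_inv]
  ext w
  refine ⟨fun h => ⟨?_, h⟩, fun h => h.2⟩
  have : (w.flatMap fun _ => ([] : List Sg)) = [] := by simp
  show L1 (w.flatMap fun _ => ([] : List Sg))
  rw [this]; exact L1.nil

theorem L0_mem : L0 ∈ Fam := by
  refine ⟨Agsm.hom fun x => [x], ?_⟩
  rw [Agsm.hom_inv]
  ext w
  show _ ↔ (w.flatMap fun x => [x]) ∈ L0.L
  rw [List.flatMap_singleton']

theorem closed_agsm : ClosedUnder AgsmInv Fam := by
  rintro M ⟨g, hg⟩ N ⟨f, hf⟩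
  exact ⟨g.comp f, by rw [hf, hg, Agsm.inv_comp]⟩

theorem principal_agsm : Principal AgsmInv Fam :=
  ⟨closed_agsm, L0, L0_mem, fun _ h => .single h⟩

theorem principal_C : Principal COp Fam := by
  refine ⟨fun M hM N h => closed_agsm M hM N ?_, L0, L0_mem, ?_⟩
  · cases h with
    | invHom X hX φ => exact ⟨Agsm.hom φ, (Agsm.hom_inv φ _).symm⟩
    | inter R hR =>
      obtain ⟨σ, _, A, rfl⟩ := hR
      refine ⟨Agsm.ofDFA A fun x => [x], ?_⟩
      rw [Agsm.ofDFA_inv]
      simp only [List.flatMap_singleton']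
  · rintro ⟨X, hX, L⟩ ⟨g, hg⟩
    obtain ⟨φ, hφ⟩ := simulate g
    refine (Relation.ReflTransGen.single (COp.invHom L0 X hX φ)).tail ?_
    have e : L = {w | w ∈ ({w | w.flatMap φ ∈ L0.L} : Language X) ∧
        w ∈ ({w | g.tS g.q0 w ∈ g.F} : Language X)} := by
      simp only at hg
      rw [hg]
      ext w
      exact ⟨fun h => ⟨(hφ w).2 h.2, h.1⟩, fun h => ⟨h.2, (hφ w).1 h.1⟩⟩
    rw [e]
    exact COp.inter ⟨X, hX, _⟩ _ g.dom_regular

theorem L0_nonreg : ¬ L0.L.IsRegular := by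
  intro hr
  have hf := hr.finite_range_leftQuotient
  obtain ⟨i, j, hij, he⟩ : ∃ i j, i < j ∧ L0.L.leftQuotient (pre i) = L0.L.leftQuotient (pre j) := by
    by_contra hn
    push Not at hn
    refine (Set.infinite_of_injective_forall_mem (f := fun i => L0.L.leftQuotient (pre i))
      (fun i j e => ?_) (fun i => Set.mem_range_self _)) hf
    rcases lt_trichotomy i j with h | h | h
    · exact absurd e (hn i j h)
    · exact h
    · exact absurd e.symm (hn j i h)
  refine om_aper i (j - i) (by omega) fun k hk => ?_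
  obtain ⟨l, hl, hv⟩ := exists_valid 0 (fun _ => (0, [])) (k + 1)
  have h1 : L1 (nm l) := by
    have := L1.step (Run.cons (q := 0) hv (Run.nil _)) L1.nil
    simpa using this
  obtain ⟨d, rfl⟩ := Nat.exists_eq_add_of_le hk
  obtain ⟨c, rfl⟩ := Nat.exists_eq_add_of_le hl
  obtain ⟨A, C, hA, hAl, e⟩ : ∃ A C, none ∉ A ∧ A.length = d ∧
      nm (i + d + 1 + c) = pre i ++ (A ++ some (om (i + d)) :: C) := by
    refine ⟨(List.range d).map fun t => some (om (i + t)),
      ((List.range c).map fun t => some (om (i + d + 1 + t))) ++ [none], by simp, by simp, ?_⟩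
    simp [nm, pre, List.range_add, List.range_succ, Function.comp_def]
  have h2 : A ++ some (om (i + d)) :: C ∈ L0.L.leftQuotient (pre i) := by
    show L1 (pre i ++ (A ++ some (om (i + d)) :: C))
    rw [← e]; exact h1
  rw [he] at h2
  obtain ⟨m, q', o, h3⟩ := L1.run h2
  have h4 := h3.pos (pre j ++ A) (om (i + d)) C (List.append_assoc _ _ _).symm
  have h5 : tl (pre j ++ A) = j + d := by
    have := tl_append [] (pre j ++ A) (by simp [hA, none_not_pre])
    simpa [tl, pre, hAl] using this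
  rw [h5] at h4
  rw [h4]; congr 1; omega

/-! The diagonal inside `T({xx})`. -/

abbrev U1 : Type := TL Unit

def xx : U1 := Sum.inl ()

theorem der_inv {i : Fin 4} {w : List U1} (h : Der i w) :
    (i = 3 → ∃ r, w = yb :: r) ∧ (i ≠ 3 → w = [] ∧ i = 0 ∨ ∃ k r,
      (w = List.replicate k y ++ z :: r ∧ r.countP (fun a => decide (a = yb)) = k) ∨ w = List.replicate k y ++ yb :: r) := by
  induction h with
  | v0_v1 _ ih => exact ⟨by simp, fun _ => Or.inr ((ih.2 (by simp)).resolve_left (by simp))⟩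
  | v0_eps => exact ⟨by simp, fun _ => Or.inl ⟨rfl, rfl⟩⟩
  | v1_y _ ih =>
    refine ⟨by simp, fun _ => Or.inr ?_⟩
    obtain ⟨k, r, ⟨rfl, h⟩ | rfl⟩ := (ih.2 (by simp)).resolve_left (by simp)
    · exact ⟨k + 1, r ++ [yb], Or.inl ⟨by simp [List.replicate_succ], by
        simp [h]⟩⟩
    · exact ⟨k + 1, r ++ [yb], Or.inr (by simp [List.replicate_succ])⟩
  | v1_v3 _ ih =>
    obtain ⟨r, rfl⟩ := ih.1 rfl
    exact ⟨by simp, fun _ => Or.inr ⟨0, r ++ [z], Or.inr (by simp)⟩⟩
  | v1_z => exact ⟨by simp, fun _ => Or.inr ⟨0, [], Or.inl ⟨rfl, rfl⟩⟩⟩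
  | v2_x a h1 _ _ ih =>
    refine ⟨by simp, fun _ => Or.inr ?_⟩
    obtain ⟨k, r, ⟨rfl, h⟩ | rfl⟩ := (ih.2 (by simp)).resolve_left (by simp)
    · exact ⟨k, r ++ [a], Or.inl ⟨by simp, by
        simp [h, h1]⟩⟩
    · exact ⟨k, r ++ [a], Or.inr (by simp)⟩
  | v2_v1 _ ih => exact ⟨by simp, fun _ => Or.inr ((ih.2 (by simp)).resolve_left (by simp))⟩
  | v3_x a _ _ ih =>
    obtain ⟨r, rfl⟩ := ih.1 rfl
    exact ⟨fun _ => ⟨r ++ [a], rfl⟩, by simp⟩
  | v3_yb => exact ⟨fun _ => ⟨[], rfl⟩, by simp⟩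

theorem rep_split {a : U1} : ∀ {k n : ℕ} {b c : U1} {r s : List U1}, b ≠ a → c ≠ a →
    List.replicate k a ++ b :: r = List.replicate n a ++ c :: s → k = n ∧ b = c ∧ r = s := by
  intro k
  induction k with
  | zero =>
    intro n b c r s hb _ h
    cases n with
    | zero => simpa using h
    | succ n => simp [List.replicate_succ] at h; exact absurd h.1 hb
  | succ k ih =>
    intro n b c r s hb hc h
    cases n with
    | zero => simp [List.replicate_succ] at h; exact absurd h.1.symm hc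
    | succ n =>
      simp only [List.replicate_succ, List.cons_append, List.cons.injEq, true_and] at h
      obtain ⟨h1, h2⟩ := ih hb hc h
      exact ⟨by rw [h1], h2⟩

theorem der_diag (n : ℕ) : Der 1 (List.replicate n (y : U1) ++ z :: List.replicate n yb) := by
  induction n with
  | zero => exact Der.v1_z
  | succ n ih =>
    have := Der.v1_y (Der.v2_v1 ih)
    rw [List.replicate_succ, List.replicate_succ']
    simpa using this

abbrev M2 : Lang := ⟨Unit, inferInstance, {w | w = [(), ()]}⟩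

def wd (n m : ℕ) : List U1 :=
  [z, yb, xx] ++ (List.replicate n y ++ (z :: List.replicate m yb ++ [xx, y]))

theorem wd_mem (n : ℕ) : wd n n ∈ (T M2).L :=
  ⟨[(), ()], rfl, _, [y], Inter.cons () () (Der.v0_v1 (der_diag n)) (Inter.one ()),
    Or.inl rfl, by simp [wd, xx]⟩

theorem split_x {a a' w w' : List U1} (ha : xx ∉ a) (hw : xx ∉ w)
    (h : a ++ xx :: w = a' ++ xx :: w') : a = a' := by
  induction a generalizing a' with
  | nil =>
    cases a' with
    | nil => rfl
    | cons x a' => simp at h; simp [h.2] at hw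
  | cons x a ih =>
    cases a' with
    | nil => simp at h; simp [h.1] at ha
    | cons x' a' =>
      simp only [List.cons_append, List.cons.injEq] at h
      rw [h.1, ih (fun e => ha (by simp [e])) h.2]

theorem wd_diag {n m : ℕ} (h : wd n m ∈ (T M2).L) : n = m := by
  obtain ⟨f, hf, u, b, hu, -, e⟩ := h
  obtain rfl : f = [(), ()] := hf
  cases hu with
  | @cons _ _ _ α r hα hr =>
    cases hr
    have e2 : (List.replicate n y ++ z :: List.replicate m yb) ++ xx :: [y] = α ++ xx :: b := by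
      simpa [wd, xx] using e
    have e3 := split_x (by simp [xx, y, z, yb, List.mem_replicate]) (by simp [xx, y]) e2
    rcases (der_inv hα).2 (by simp) with ⟨h, -⟩ | ⟨k, r, ⟨h1, h2⟩ | h1⟩
    · rw [h] at e3; simp at e3
    · obtain ⟨rfl, -, rfl⟩ := rep_split (by simp [y, z]) (by simp [y, z]) (e3.trans h1)
      simpa [List.countP_replicate] using h2.symm
    · have := (rep_split (by simp [y, z]) (by simp [y, yb]) (e3.trans h1)).2.1
      simp [z, yb] at this

theorem M2_mem : M2 ∈ Fam := by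
  refine mem_of_regular _ _ _ ?_
  refine regular_of (fun v : List Unit => (⟨min v.length 3, by omega⟩ : Fin 4))
    (fun x v v' h => ?_) _ fun v v' h hv => ?_
  · simp only [Fin.mk.injEq, List.length_cons] at h ⊢; omega
  · obtain rfl : v = [(), ()] := hv
    simp only [Fin.mk.injEq, List.length_cons, List.length_nil] at h
    exact List.ext_getElem (by simp; omega) fun _ _ _ => rfl

theorem not_closed : T M2 ∉ Fam := by
  intro H
  obtain ⟨g, hg⟩ : ∃ g : Agsm U1 Sg, ∀ w : List U1, w ∈ (T M2).L ↔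
      g.tS g.q0 w ∈ g.F ∧ L1 (g.hS g.q0 w) := by
    obtain ⟨g, hg⟩ := H
    exact ⟨g, fun w => by rw [hg]; rfl⟩
  obtain ⟨φ, hφ⟩ := simulate g
  haveI := g.finQ
  have hf := torsion _ (φ y) (List.flatMap φ [z, yb, xx]) rfl
  haveI := hf.to_subtype
  obtain ⟨n, n', hne, he⟩ := Finite.exists_ne_map_eq_of_infinite fun n : ℕ =>
    (g.tS g.q0 ([z, yb, xx] ++ List.replicate n y),
      (⟨_, n, rfl⟩ : Set.range fun n => Ner (List.flatMap φ [z, yb, xx] ++ rp n (φ y))))
  simp only [Prod.mk.injEq, Subtype.mk.injEq] at he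
  have hrp : ∀ n, (List.replicate n (y : U1)).flatMap φ = rp n (φ y) := fun n => by
    induction n with
    | zero => rfl
    | succ n ih => rw [List.replicate_succ, List.flatMap_cons, ih, rp]
  have key : ∀ n m, wd n m ∈ (T M2).L ↔
      g.tS (g.tS g.q0 ([z, yb, xx] ++ List.replicate n y)) (z :: List.replicate m yb ++ [xx, y]) ∈ g.F ∧
      (z :: List.replicate m yb ++ [xx, y]).flatMap φ ∈
        Ner (List.flatMap φ [z, yb, xx] ++ rp n (φ y)) := by
    intro n m
    rw [hg]
    refine and_congr ?_ ?_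
    · rw [wd, ← List.append_assoc, Agsm.tS_append]
    · refine (hφ _).symm.trans ?_
      rw [wd, List.flatMap_append, List.flatMap_append, hrp, ← List.append_assoc]
      rfl
  have h1 := (key n n).1 (wd_mem n)
  rw [he.1, he.2] at h1
  exact hne (wd_diag ((key n' n).2 h1)).symm

end Pool.Agent.H53Lang
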